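import Pool.Agent.N929.AC.Stm

/-!
# Project AC (helper738): growth and the assembly of the analytic continuation
-/

set_option autoImplicit false
set_option linter.unusedVariables false

namespace Pool.Agent.N738.AC

open Finset Filter Topology Pool.Agent.N929.EG Pool.Agent.N929.AC
open scoped Classical

noncomputable section

variable {α σ : Type}

theorem sum_pp (p : ℕ) (ρ : ℝ) (h0 : 0 ≤ ρ) (h1 : ρ < 1) :
    Summable (fun n : ℕ => ((n : ℝ) + 1) ^ p * ρ ^ n) := by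
  have h2 : Summable (fun n : ℕ => 2 ^ p * ((n : ℝ) ^ p * ρ ^ n)) :=
    (summable_pow_mul_geometric_of_norm_lt_one p
      (by rwa [Real.norm_eq_abs, abs_of_nonneg h0])).mul_left _
  refine h2.of_norm_bounded_eventually_nat ?_
  filter_upwards [eventually_ge_atTop 1] with n hn
  have hn' : (1 : ℝ) ≤ n := by exact_mod_cast hn
  rw [Real.norm_eq_abs, abs_of_nonneg (by positivity), ← mul_assoc]
  refine mul_le_mul_of_nonneg_right ?_ (by positivity)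
  rw [← mul_pow]
  exact pow_le_pow_left₀ (by positivity) (by linarith) p

theorem aa_nonneg {Y : TS α σ} {F : α → ℝ} (h : ∀ n, ∀ w ∈ Y.K n, 0 ≤ F w) (n : ℕ) :
    0 ≤ aa Y F n := Finset.sum_nonneg fun w hw => h n w hw

theorem grw : S_GRW := by
  intro α σ Y μ φ hG F C₀ p hC₀ hF x hx hμx
  have hμ := hG.one
  have hr0 : 0 ≤ μ * x := by positivity
  set r := μ * x with hr
  set e := (1 - r) / 2 with he
  have he0 : 0 < e := by rw [he]; linarith
  have hρ : r * Real.exp e < 1 := by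
    have h1 := Real.add_one_le_exp (-e)
    have h3 : Real.exp e * Real.exp (-e) = 1 := by rw [← Real.exp_add]; simp
    have h4 := Real.exp_pos e
    have h2 : Real.exp e * (1 - e) ≤ 1 := by
      rw [← h3]
      exact mul_le_mul_of_nonneg_left (by linarith) h4.le
    have h5 : r < 1 - e := by rw [he]; linarith
    have h6 : r * Real.exp e < (1 - e) * Real.exp e := mul_lt_mul_of_pos_right h5 h4
    linarith [mul_comm (1 - e) (Real.exp e)]
  have h1 : ∀ᶠ n : ℕ in atTop, φ n / n < e := hG.phi.lim.eventually_lt_const he0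
  have h2 : Summable (fun n : ℕ => C₀ * (((n : ℝ) + 1) ^ p * (r * Real.exp e) ^ n)) :=
    (sum_pp p _ (by positivity) hρ).mul_left _
  refine h2.of_norm_bounded_eventually_nat ?_
  filter_upwards [h1, eventually_ge_atTop 2] with n hn1 hn2
  have hn0 : (0 : ℝ) < n := by exact_mod_cast (by omega : 0 < n)
  have h3 : φ n ≤ e * n := by
    rw [div_lt_iff₀ hn0] at hn1
    exact hn1.le
  have h4 := hG.up n n hn2 (by omega)
  have h5 : aa Y F n ≤ (Y.K n).card * (C₀ * ((n : ℝ) + 1) ^ p) := by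
    unfold aa
    have := Finset.sum_le_card_nsmul (Y.K n) F (C₀ * ((n : ℝ) + 1) ^ p)
      (fun w hw => (hF n w hw).2)
    rwa [nsmul_eq_mul] at this
  rw [Real.norm_eq_abs, abs_of_nonneg (mul_nonneg (aa_nonneg (fun n w hw => (hF n w hw).1) n)
    (pow_nonneg hx n))]
  have h6 : Real.exp (φ n) ≤ Real.exp e ^ n := by
    rw [← Real.exp_nat_mul]
    apply Real.exp_le_exp.2
    linarith [mul_comm e (n : ℝ)]
  have h7 : ((Y.K n).card : ℝ) ≤ μ ^ n * Real.exp e ^ n :=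
    h4.trans (mul_le_mul_of_nonneg_left h6 (by positivity))
  calc aa Y F n * x ^ n ≤ ((Y.K n).card * (C₀ * ((n : ℝ) + 1) ^ p)) * x ^ n :=
        mul_le_mul_of_nonneg_right h5 (by positivity)
    _ ≤ ((μ ^ n * Real.exp e ^ n) * (C₀ * ((n : ℝ) + 1) ^ p)) * x ^ n :=
        mul_le_mul_of_nonneg_right (mul_le_mul_of_nonneg_right h7 (by positivity))
          (by positivity)
    _ = _ := by
        rw [hr, mul_pow, mul_pow]
        ring

theorem avg_le {ι : Type} [Fintype ι] [Nonempty ι] (g : ι → ℂ) (t : ι → ℝ)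
    (h : ∀ i, ‖g i‖ ≤ t i) :
    ‖(Fintype.card ι : ℂ)⁻¹ * ∑ i, g i‖ ≤ (Fintype.card ι : ℝ)⁻¹ * ∑ i, t i := by
  rw [norm_mul, norm_inv, Complex.norm_natCast]
  exact mul_le_mul_of_nonneg_left ((norm_sum_le _ _).trans (Finset.sum_le_sum fun i _ => h i))
    (by positivity)

/-- the average over the families -/
theorem ex_P (hbnd : S_BND) (hcnv : S_CNV) (Y : TS α σ) (μ c₀ θ C C₀ : ℝ) (p : ℕ)
    (hc₀ : 0 < c₀) (hθ : 0 < θ) (hμ : 1 ≤ μ) (hC : 0 < C) (hC₀ : 0 ≤ C₀) (θ₂ : ℝ)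
    (h20 : 0 ≤ θ₂) (h21 : θ₂ < 1) (F : α → ℝ)
    (hF : ∀ n, ∀ w ∈ Y.K n, 0 ≤ F w ∧ F w ≤ C₀ * ((n : ℝ) + 1) ^ p)
    (hinv : ∀ n, ∀ w ∈ Y.K n, ∀ q ∈ Y.S w, F (Y.ins w q) = F w) (N : ℕ)
    (ι : Type) [Fintype ι] [Nonempty ι] (Λ : ι → Finset σ) (hFam : ∀ i, Fam Y (Λ i))
    (hfew : ∀ m ≤ N, ∑ i, (((Y.K m).filter
      (fun w => ((Sl Y (Λ i) w).card : ℝ) < c₀ * m)).card : ℝ) ≤
        C * (θ * μ) ^ m * Fintype.card ι) :
    ∃ P : ℂ → ℂ, Differentiable ℂ P ∧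
      (∀ (z : ℂ) (x : ℝ), 0 ≤ x → Summable (fun n => aa Y F n * x ^ n) → ‖z‖ ≤ x →
        ‖P z‖ ≤ ∑' n, aa Y F n * x ^ n) ∧
      (∀ (z : ℂ) (x δ : ℝ), 0 ≤ x → Summable (fun n => aa Y F n * x ^ n) → 0 ≤ δ →
        ‖z‖ ≤ x * Real.exp (c₀ * δ) → ‖1 + z ^ Y.s‖ ≤ (1 + x ^ Y.s) * Real.exp (-δ) →
        θ * μ * (‖z‖ * (1 + ‖z‖ ^ Y.s) ^ c₀) ≤ θ₂ →
        ‖P z‖ ≤ (∑' n, aa Y F n * x ^ n) +
          ∑' m : ℕ, C₀ * C * (((m : ℝ) + 1) ^ p * θ₂ ^ m)) ∧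
      (∀ z : ℂ, Summable (fun n => aa Y F n * ‖z‖ ^ n) →
        ‖P z - ∑ n ∈ range (N + 1), (aa Y F n : ℂ) * z ^ n‖ ≤
          ∑' n, aa Y F (n + (N + 1)) * ‖z‖ ^ (n + (N + 1))) := by
  have hF0 : ∀ n, ∀ w ∈ Y.K n, 0 ≤ F w := fun n w hw => (hF n w hw).1
  have hcard : (0 : ℝ) < Fintype.card ι := by exact_mod_cast Fintype.card_pos
  have hcardC : (Fintype.card ι : ℂ) ≠ 0 := by exact_mod_cast hcard.ne'
  refine ⟨fun z => (Fintype.card ι : ℂ)⁻¹ * ∑ i, PL Y F (Λ i) N z, ?_, ?_, ?_, ?_⟩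
  · unfold PL
    fun_prop
  · intro z x hx hs hz
    refine (avg_le _ (fun _ => ∑' n, aa Y F n * x ^ n) fun i =>
      (hbnd α σ Y F hinv hF0 (Λ i) (hFam i) N z x hx hs).1 hz).trans (le_of_eq ?_)
    rw [Finset.sum_const, Finset.card_univ, nsmul_eq_mul, ← mul_assoc, inv_mul_cancel₀ hcard.ne',
      one_mul]
  · intro z x δ hx hs hδ h1 h2 h3
    set y : ℝ := ‖z‖ * (1 + ‖z‖ ^ Y.s) ^ c₀ with hy
    have hy0 : 0 ≤ y := by positivity
    set T : ℝ := ∑' n, aa Y F n * x ^ n with hT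
    refine (avg_le _ (fun i => T + ∑ m ∈ range (N + 1), ∑ w ∈ (Y.K m).filter
      (fun w => ((Sl Y (Λ i) w).card : ℝ) < c₀ * m), F w * y ^ m) fun i =>
      (hbnd α σ Y F hinv hF0 (Λ i) (hFam i) N z x hx hs).2 c₀ δ hc₀ hδ h1 h2).trans ?_
    rw [Finset.sum_add_distrib, Finset.sum_const, Finset.card_univ, nsmul_eq_mul, mul_add,
      ← mul_assoc, inv_mul_cancel₀ hcard.ne', one_mul]
    refine add_le_add le_rfl ?_
    rw [inv_mul_le_iff₀ hcard, Finset.sum_comm]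
    have hsum : Summable (fun m : ℕ => C₀ * C * (((m : ℝ) + 1) ^ p * θ₂ ^ m)) :=
      (sum_pp p θ₂ h20 h21).mul_left _
    have h4 : ∑ m ∈ range (N + 1), C₀ * C * (((m : ℝ) + 1) ^ p * θ₂ ^ m)
        ≤ ∑' m : ℕ, C₀ * C * (((m : ℝ) + 1) ^ p * θ₂ ^ m) :=
      hsum.sum_le_tsum _ fun m _ => by positivity
    refine le_trans ?_ (mul_le_mul_of_nonneg_left h4 hcard.le)
    rw [Finset.mul_sum]
    refine Finset.sum_le_sum fun m hm => ?_
    have hmN : m ≤ N := by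
      have := Finset.mem_range.1 hm
      omega
    calc ∑ i, ∑ w ∈ (Y.K m).filter (fun w => ((Sl Y (Λ i) w).card : ℝ) < c₀ * m), F w * y ^ m
        ≤ ∑ i, (((Y.K m).filter (fun w => ((Sl Y (Λ i) w).card : ℝ) < c₀ * m)).card : ℝ) *
            (C₀ * ((m : ℝ) + 1) ^ p * y ^ m) := by
          refine Finset.sum_le_sum fun i _ => ?_
          have h5 := Finset.sum_le_card_nsmul
            ((Y.K m).filter (fun w => ((Sl Y (Λ i) w).card : ℝ) < c₀ * m))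
            (fun w => F w * y ^ m) (C₀ * ((m : ℝ) + 1) ^ p * y ^ m) (fun w hw =>
              mul_le_mul_of_nonneg_right (hF m w (Finset.mem_filter.1 hw).1).2 (by positivity))
          rwa [nsmul_eq_mul] at h5
      _ = (∑ i, (((Y.K m).filter (fun w => ((Sl Y (Λ i) w).card : ℝ) < c₀ * m)).card : ℝ)) *
            (C₀ * ((m : ℝ) + 1) ^ p * y ^ m) := by rw [Finset.sum_mul]
      _ ≤ (C * (θ * μ) ^ m * Fintype.card ι) * (C₀ * ((m : ℝ) + 1) ^ p * y ^ m) :=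
          mul_le_mul_of_nonneg_right (hfew m hmN) (by positivity)
      _ = Fintype.card ι * (C₀ * C * (((m : ℝ) + 1) ^ p * (θ * μ * y) ^ m)) := by
          rw [mul_pow (θ * μ) y m]
          ring
      _ ≤ Fintype.card ι * (C₀ * C * (((m : ℝ) + 1) ^ p * θ₂ ^ m)) := by
          refine mul_le_mul_of_nonneg_left (mul_le_mul_of_nonneg_left
            (mul_le_mul_of_nonneg_left (pow_le_pow_left₀ (by positivity) h3 m) (by positivity))
            (by positivity)) hcard.le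
  · intro z hs
    have h1 : (Fintype.card ι : ℂ)⁻¹ * ∑ i, PL Y F (Λ i) N z -
        ∑ n ∈ range (N + 1), (aa Y F n : ℂ) * z ^ n =
        (Fintype.card ι : ℂ)⁻¹ * ∑ i, (PL Y F (Λ i) N z -
          ∑ n ∈ range (N + 1), (aa Y F n : ℂ) * z ^ n) := by
      rw [Finset.sum_sub_distrib, Finset.sum_const, Finset.card_univ, nsmul_eq_mul, mul_sub,
        ← mul_assoc _ (Fintype.card ι : ℂ), inv_mul_cancel₀ hcardC, one_mul]
    simp only []
    rw [h1]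
    refine (avg_le _ (fun _ => ∑' n, aa Y F (n + (N + 1)) * ‖z‖ ^ (n + (N + 1))) fun i =>
      hcnv α σ Y F hinv hF0 (Λ i) (hFam i) N z hs).trans (le_of_eq ?_)
    rw [Finset.sum_const, Finset.card_univ, nsmul_eq_mul, ← mul_assoc, inv_mul_cancel₀ hcard.ne',
      one_mul]

/-- the choice of the constants -/
theorem consts (θ c₀ : ℝ) (s : ℕ) (hθ : 0 < θ) (hθ1 : θ < 1) (hc₀ : 0 < c₀) :
    ∃ c₀' c₂ θ₂ : ℝ, 0 < c₀' ∧ c₀' ≤ c₀ ∧ 0 < c₂ ∧ 0 ≤ θ₂ ∧ θ₂ < 1 ∧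
      ∀ c : ℝ, 0 < c → c ≤ c₂ → θ * ((1 + 2 * c) * (1 + 2 ^ s) ^ c₀') ≤ θ₂ := by
  set q : ℝ := (1 + θ) / (2 * θ) with hq
  have hq1 : 1 < q := by
    rw [hq, lt_div_iff₀ (by positivity)]
    linarith
  have hlq : 0 < Real.log q := Real.log_pos hq1
  have h2s : (1 : ℝ) < 1 + 2 ^ s := by
    have : (0 : ℝ) < 2 ^ s := by positivity
    linarith
  have hl2 : 0 < Real.log (1 + 2 ^ s) := Real.log_pos h2s
  have hsq : 1 < Real.sqrt q := by
    rw [Real.lt_sqrt (by norm_num)]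
    linarith
  have hqq : Real.sqrt q * Real.sqrt q = q := Real.mul_self_sqrt (by linarith)
  refine ⟨min c₀ (Real.log q / (2 * Real.log (1 + 2 ^ s))), (Real.sqrt q - 1) / 2,
    (1 + θ) / 2, lt_min hc₀ (by positivity), min_le_left _ _, by linarith, by linarith,
    by linarith, fun c hc hc2 => ?_⟩
  set c' := min c₀ (Real.log q / (2 * Real.log (1 + 2 ^ s))) with hc'
  have h1 : (1 + 2 ^ s : ℝ) ^ c' ≤ Real.sqrt q := by
    have h2 : c' ≤ Real.log q / (2 * Real.log (1 + 2 ^ s)) := min_le_right _ _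
    have h3 : Real.sqrt q = Real.exp (Real.log q / 2) := by
      rw [Real.sqrt_eq_rpow, Real.rpow_def_of_pos (by linarith)]
      ring_nf
    rw [h3, Real.rpow_def_of_pos (by linarith)]
    apply Real.exp_le_exp.2
    calc Real.log (1 + 2 ^ s) * c' ≤ Real.log (1 + 2 ^ s) *
          (Real.log q / (2 * Real.log (1 + 2 ^ s))) := mul_le_mul_of_nonneg_left h2 hl2.le
      _ = Real.log q / 2 := by
        field_simp
  have h4 : 1 + 2 * c ≤ Real.sqrt q := by linarith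
  calc θ * ((1 + 2 * c) * (1 + 2 ^ s) ^ c') ≤ θ * (Real.sqrt q * Real.sqrt q) := by
        refine mul_le_mul_of_nonneg_left (mul_le_mul h4 h1 (by positivity) (by positivity)) hθ.le
    _ = (1 + θ) / 2 := by
        rw [hqq, hq]
        field_simp

theorem ac (hvit : S_VIT) (homg : S_OMG) (hfew : S_FEW) (hang : S_ANG) (hbnd : S_BND)
    (hcnv : S_CNV) (hgrw : S_GRW) : S_AC := by
  intro α σ Y μ φ hG
  have hμ := hG.one
  have hμ0 : 0 < μ := by linarith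
  obtain ⟨c₀, θ, C, hc₀, hθ, hθ1, hC, hfewN⟩ := hfew α σ Y μ φ hG
  obtain ⟨c₀', c₂, θ₂, hc₀', hcc, hc₂, h20, h21, hθ₂⟩ := consts θ c₀ Y.s hθ hθ1 hc₀
  obtain ⟨k, hk, c₁, hc₁, hangc⟩ := hang μ c₀' Y.s hμ hc₀' Y.hs
  set c : ℝ := min (min c₁ (1 / 4)) c₂ with hcdef
  have hc : 0 < c := lt_min (lt_min hc₁ (by norm_num)) hc₂
  have hcc1 : c ≤ c₁ := (min_le_left _ _).trans (min_le_left _ _)
  have hc4 : c ≤ 1 / 4 := (min_le_left _ _).trans (min_le_right _ _)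
  have hcc2 : c ≤ c₂ := min_le_right _ _
  obtain ⟨hO1, hO2, hO3, hcs, hcsc⟩ := homg c μ Y.s hc hμ Y.hs
  refine ⟨c, hc, fun C₀ p hC₀ => ?_⟩
  have hsum2 : Summable (fun m : ℕ => C₀ * C * (((m : ℝ) + 1) ^ p * θ₂ ^ m)) :=
    (sum_pp p θ₂ h20 h21).mul_left _
  set D : ℝ := ∑' m : ℕ, C₀ * C * (((m : ℝ) + 1) ^ p * θ₂ ^ m) with hD
  have hD0 : 0 ≤ D := tsum_nonneg fun m => by positivity
  refine ⟨1 + D, by linarith, fun F hF hinv => ?_⟩
  have hF0 : ∀ n, ∀ w ∈ Y.K n, 0 ≤ F w := fun n w hw => (hF n w hw).1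
  have haa : ∀ n, 0 ≤ aa Y F n := aa_nonneg hF0
  have hS : ∀ x : ℝ, 0 ≤ x → μ * x < 1 → Summable (fun n => aa Y F n * x ^ n) :=
    hgrw α σ Y μ φ hG F C₀ p hC₀ hF
  -- the polynomials
  have hexP : ∀ N : ℕ, ∃ P : ℂ → ℂ, Differentiable ℂ P ∧
      (∀ (z : ℂ) (x : ℝ), 0 ≤ x → Summable (fun n => aa Y F n * x ^ n) → ‖z‖ ≤ x →
        ‖P z‖ ≤ ∑' n, aa Y F n * x ^ n) ∧
      (∀ (z : ℂ) (x δ : ℝ), 0 ≤ x → Summable (fun n => aa Y F n * x ^ n) → 0 ≤ δ →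
        ‖z‖ ≤ x * Real.exp (c₀' * δ) → ‖1 + z ^ Y.s‖ ≤ (1 + x ^ Y.s) * Real.exp (-δ) →
        θ * μ * (‖z‖ * (1 + ‖z‖ ^ Y.s) ^ c₀') ≤ θ₂ →
        ‖P z‖ ≤ (∑' n, aa Y F n * x ^ n) + D) ∧
      (∀ z : ℂ, Summable (fun n => aa Y F n * ‖z‖ ^ n) →
        ‖P z - ∑ n ∈ range (N + 1), (aa Y F n : ℂ) * z ^ n‖ ≤
          ∑' n, aa Y F (n + (N + 1)) * ‖z‖ ^ (n + (N + 1))) := by
    intro N
    obtain ⟨ι, i1, i2, Λ, hFam, hL⟩ := hfewN N
    refine ex_P hbnd hcnv Y μ c₀' θ C C₀ p hc₀' hθ hμ hC hC₀ θ₂ h20 h21 F hF hinv N ι Λ hFam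
      fun m hm => ?_
    refine le_trans (Finset.sum_le_sum fun i _ => ?_) (hL m hm)
    have h1 : (Y.K m).filter (fun w => ((Sl Y (Λ i) w).card : ℝ) < c₀' * m) ⊆
        (Y.K m).filter (fun w => ((Sl Y (Λ i) w).card : ℝ) < c₀ * m) := by
      intro w hw
      rw [Finset.mem_filter] at hw ⊢
      refine ⟨hw.1, hw.2.trans_le ?_⟩
      exact mul_le_mul_of_nonneg_right hcc (Nat.cast_nonneg m)
    exact_mod_cast Finset.card_le_card h1
  choose P hP1 hP2 hP3 hP4 using hexP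
  -- the size of the points of the domain
  have hsize : ∀ z ∈ Om c μ Y.s, θ * μ * (‖z‖ * (1 + ‖z‖ ^ Y.s) ^ c₀') ≤ θ₂ := by
    intro z hz
    have h1 : μ * ‖z‖ < 1 + c * (1 - cs Y.s z) := hz
    have h2 := abs_le.1 (hcs z)
    have h3 : μ * ‖z‖ ≤ 1 + 2 * c := by nlinarith [h2.1]
    have h4 : ‖z‖ ≤ 2 := by
      have h5 : ‖z‖ ≤ μ * ‖z‖ := by nlinarith [norm_nonneg z]
      linarith
    have h5 : (1 + ‖z‖ ^ Y.s) ^ c₀' ≤ (1 + 2 ^ Y.s : ℝ) ^ c₀' := by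
      refine Real.rpow_le_rpow (by positivity) ?_ hc₀'.le
      have := pow_le_pow_left₀ (norm_nonneg z) h4 Y.s
      linarith
    calc θ * μ * (‖z‖ * (1 + ‖z‖ ^ Y.s) ^ c₀') = θ * ((μ * ‖z‖) * (1 + ‖z‖ ^ Y.s) ^ c₀') := by
          ring
      _ ≤ θ * ((1 + 2 * c) * (1 + 2 ^ Y.s) ^ c₀') := by
          refine mul_le_mul_of_nonneg_left (mul_le_mul h3 h5 (by positivity) (by positivity)) hθ.le
      _ ≤ θ₂ := hθ₂ c hc hcc2
  have hxx : ∀ z : ℂ, μ * xx c μ Y.s z = 1 - c * (1 - cs Y.s z) := by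
    intro z
    unfold xx
    field_simp
  have hxs : ∀ z ∈ Om c μ Y.s, cs Y.s z < 1 → Summable (fun n => aa Y F n * xx c μ Y.s z ^ n) := by
    intro z hz hz1
    refine hS _ (hangc c hc hcc1 z hz).1.le ?_
    rw [hxx]
    nlinarith
  -- the bound
  have hB : ∀ N, ∀ z ∈ Om c μ Y.s, cs Y.s z < 1 →
      ‖P N z‖ ≤ (∑' n, aa Y F n * xx c μ Y.s z ^ n) + D := by
    intro N z hz hz1
    obtain ⟨hx0, hx1⟩ := hangc c hc hcc1 z hz
    have hs := hxs z hz hz1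
    rcases le_or_gt ‖z‖ (xx c μ Y.s z) with h | h
    · have := hP2 N z _ hx0.le hs h
      linarith
    · obtain ⟨h1, h2⟩ := hx1 h
      exact hP3 N z _ (k * (1 - cs Y.s z)) hx0.le hs
        (mul_nonneg hk.le (by linarith)) h1 h2 (hsize z hz)
  -- local boundedness
  have hloc : ∀ z ∈ Om c μ Y.s, ∃ r B : ℝ, 0 < r ∧
      ∀ N, ∀ z' ∈ Metric.ball z r ∩ Om c μ Y.s, ‖P N z'‖ ≤ B := by
    intro z hz
    rcases lt_or_ge (μ * ‖z‖) 1 with h | h
    · have h1 : ‖z‖ < 1 / μ := by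
        rw [lt_div_iff₀ hμ0, mul_comm]
        exact h
      obtain ⟨x, hx1, hx2⟩ := exists_between h1
      have hx0 : 0 ≤ x := (norm_nonneg z).trans hx1.le
      have hx3 : μ * x < 1 := by
        rw [lt_div_iff₀ hμ0, mul_comm] at hx2
        exact hx2
      refine ⟨x - ‖z‖, ∑' n, aa Y F n * x ^ n, by linarith, fun N z' hz' => ?_⟩
      refine hP2 N z' x hx0 (hS x hx0 hx3) ?_
      have h2 : dist z' z < x - ‖z‖ := hz'.1
      rw [dist_eq_norm] at h2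
      have h3 : ‖z'‖ ≤ ‖z' - z‖ + ‖z‖ := by
        have := norm_add_le (z' - z) z
        rwa [sub_add_cancel] at this
      linarith
    · have hz0 : z ≠ 0 := by
        rintro rfl
        simp at h
        linarith
      have hz1 : cs Y.s z < 1 := by
        have h1 : μ * ‖z‖ < 1 + c * (1 - cs Y.s z) := hz
        by_contra h2
        push Not at h2
        nlinarith
      set q : ℝ := (1 + cs Y.s z) / 2 with hq
      have hq1 : cs Y.s z < q := by rw [hq]; linarith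
      have hq2 : q < 1 := by rw [hq]; linarith
      have h1 : ∀ᶠ z' in 𝓝 z, cs Y.s z' < q := (hcsc z hz0).eventually_lt_const hq1
      obtain ⟨r, hr, hr1⟩ := Metric.eventually_nhds_iff.1 h1
      have hcz := abs_le.1 (hcs z)
      have hX0 : 0 ≤ (1 - c * (1 - q)) / μ := by
        refine div_nonneg ?_ hμ0.le
        have : c * (1 - q) ≤ 1 / 4 * 1 :=
          mul_le_mul hc4 (by rw [hq]; linarith [hcz.1]) (by linarith) (by norm_num)
        linarith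
      have hX1 : μ * ((1 - c * (1 - q)) / μ) < 1 := by
        rw [mul_div_cancel₀ _ hμ0.ne']
        nlinarith
      refine ⟨r, (∑' n, aa Y F n * ((1 - c * (1 - q)) / μ) ^ n) + D, hr, fun N z' hz' => ?_⟩
      have hz'q : cs Y.s z' < q := hr1 hz'.1
      have h2 := hB N z' hz'.2 (hz'q.trans hq2)
      refine h2.trans (add_le_add ?_ le_rfl)
      refine (hxs z' hz'.2 (hz'q.trans hq2)).tsum_le_tsum (fun n => ?_) (hS _ hX0 hX1)
      refine mul_le_mul_of_nonneg_left ?_ (haa n)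
      refine pow_le_pow_left₀ (hangc c hc hcc1 z' hz'.2).1.le ?_ n
      unfold xx
      refine div_le_div_of_nonneg_right ?_ hμ0.le
      nlinarith
  -- convergence in the disc
  have hDsum : ∀ z : ℂ, μ * ‖z‖ < 1 →
      Summable (fun n => (aa Y F n : ℂ) * z ^ n) := by
    intro z hz
    refine Summable.of_norm ?_
    have h1 := hS ‖z‖ (norm_nonneg z) hz
    refine h1.congr fun n => ?_
    rw [norm_mul, norm_pow, Complex.norm_real, Real.norm_eq_abs, abs_of_nonneg (haa n)]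
  have hDlim : ∀ z : ℂ, μ * ‖z‖ < 1 →
      Tendsto (fun N => P N z) atTop (𝓝 (∑' n, (aa Y F n : ℂ) * z ^ n)) := by
    intro z hz
    have h1 := hS ‖z‖ (norm_nonneg z) hz
    have h2 : Tendsto (fun N : ℕ => ∑' n, aa Y F (n + (N + 1)) * ‖z‖ ^ (n + (N + 1)))
        atTop (𝓝 0) :=
      (tendsto_sum_nat_add (fun n => aa Y F n * ‖z‖ ^ n)).comp (tendsto_add_atTop_nat 1)
    have h3 : Tendsto (fun N : ℕ => ∑ n ∈ range (N + 1), (aa Y F n : ℂ) * z ^ n) atTop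
        (𝓝 (∑' n, (aa Y F n : ℂ) * z ^ n)) :=
      (hDsum z hz).hasSum.tendsto_sum_nat.comp (tendsto_add_atTop_nat 1)
    have h4 : Tendsto (fun N : ℕ => P N z - ∑ n ∈ range (N + 1), (aa Y F n : ℂ) * z ^ n) atTop
        (𝓝 0) :=
      squeeze_zero_norm (fun N => hP4 N z h1) h2
    have h5 := h4.add h3
    simp only [sub_add_cancel, zero_add] at h5
    exact h5
  have hDopen : IsOpen {z : ℂ | μ * ‖z‖ < 1} := isOpen_lt (by fun_prop) continuous_const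
  obtain ⟨f, hf1, hf2⟩ := hvit (Om c μ Y.s) {z : ℂ | μ * ‖z‖ < 1} hO1 hO2 hDopen
    ⟨0, by simp⟩ (fun z hz => hO3 z hz) P (fun N => (hP1 N).differentiableOn) hloc
    (fun z hz => ⟨_, hDlim z hz⟩)
  refine ⟨f, hf1, fun z hz => ?_, fun z hz hz0 hz1 => ⟨hxs z hz hz1, ?_⟩⟩
  · have h1 := tendsto_nhds_unique (hf2 z (hO3 z hz)) (hDlim z hz)
    rw [h1]
    exact (hDsum z hz).hasSum
  · have h1 := (hf2 z hz).norm
    have h2 := le_of_tendsto h1 (Eventually.of_forall fun N => hB N z hz hz1)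
    linarith

end

end Pool.Agent.N738.AC
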